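import Pool.Agent.Helper68.VN.GoalsN
import Pool.Agent.Helper65.SG.NQ

/-!
# Project HC, theorem PG (MP_a41896_nt): NQX, the norm polynomial (adapted from Helper4.SG2.NQT)
-/

set_option autoImplicit false

open MvPolynomial

namespace Pool.Agent.Helper38.VN.NQX

open WeierstrassCurve Height
open Pool.Agent.Helper29.BL Pool.Agent.Helper92.Ru Pool.Agent.Helper42.SG
open Pool.Agent.Helper65.SG (NPol FRPO NQH PlC_mul)
open Pool.Agent.Helper68.VN

theorem le_sqB {n : ℕ} (e : Fin n → ℕ) (j : Fin n) : 4 ^ e j ≤ sqB e :=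
  Finset.single_le_sum (f := fun j => 4 ^ e j) (fun _ _ => Nat.zero_le _) (Finset.mem_univ j)

theorem one_le_sqB {n : ℕ} (e : Fin n → ℕ) (hn : 1 ≤ n) : 1 ≤ sqB e :=
  (Nat.one_le_pow _ _ (by norm_num)).trans (le_sqB e ⟨0, hn⟩)

theorem ddB_le (σ : Type) [Fintype σ] (n M δ : ℕ) (e : Fin n → ℕ) (hn : 1 ≤ n) (h : VV σ n) :
    ddB σ n M δ e h ≤ nsg σ n * (2 * M + 1 + 2 * n * M + δ) * sqB e := by
  rcases h with h | h
  · have h1 : 4 ^ e h.1 ≤ sqB e := le_sqB e h.1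
    calc nsg σ n * ((2 * M + 1) * 4 ^ e h.1) ≤ nsg σ n * ((2 * M + 1) * sqB e) := by gcongr
      _ = nsg σ n * (2 * M + 1) * sqB e := by ring
      _ ≤ _ := Nat.mul_le_mul_right _ (Nat.mul_le_mul_left _ (by omega))
  · have h1 := one_le_sqB e hn
    calc nsg σ n * (2 * n * M + δ) = nsg σ n * (2 * n * M + δ) * 1 := by ring
      _ ≤ nsg σ n * (2 * M + 1 + 2 * n * M + δ) * sqB e := by gcongr; omega

theorem aeval_redV (hNNB : NNB) (hNEB : NEB) (hNVB : NVB) {K : Type} [Field K] [NumberField K]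
    (σ : Type) [Fintype σ] [DecidableEq σ] (W : σ → Affine K)
    (n M δ : ℕ) (e : Fin n → ℕ) (c : Ix σ n M δ e → K) (A : Type) [CommRing A] [Algebra K A]
    (X Ψ : Fin n → σ → A) (X0 Ψ0 : σ → A) (hX : OnB W X Ψ X0 Ψ0) :
    aeval (Sum.elim (fun h : Fin n × σ => X h.1 h.2) X0) (redV (cv W) (QhB W n M δ e c)) =
      ∏ ε : Fin n × σ → ℤˣ,
        P0B W n M δ e c X (fun j i => (((ε (j, i) : ℤˣ) : ℤ) : A) * Ψ j i) X0 Ψ0 := by
  rw [hNVB K (VV σ n) (cv W) (QhB W n M δ e c) A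
    (Sum.elim (fun h : Fin n × σ => X h.1 h.2) X0)
    (Sum.elim (fun h : Fin n × σ => Ψ h.1 h.2) Ψ0) ?_ (hNEB K σ W n M δ e c), QhB, map_prod]
  · refine Finset.prod_congr rfl fun ε _ => ?_
    rw [PeB, hNNB K σ W n M δ e c (GRB K σ n) A]
    simp
  · rintro (h | h)
    · exact hX.blk h.1 h.2
    · exact hX.ref h

theorem t_NQX (hNZHB : NZHB) (hFRPO : FRPO) (hNBB : NBB) (hNWB : NWB) (hNNB : NNB)
    (hNEB : NEB) (hNVB : NVB) (hNDB : NDB) (hNRB : NRB) (hNHB : NHB) (hNQH : NQH) :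
    Pool.Agent.Helper68.VN.NQX := by
  classical
  intro K _ _ σ _ _ W hW n M δ hn hM hδ
  obtain ⟨B1, hB1, h1⟩ := hNBB K σ W n M δ hn
  obtain ⟨B2, hB2, h2⟩ := hNRB K (VV σ n) (cv W)
  obtain ⟨k0, hk0⟩ : ∃ k0, k0 = nsg σ n * (2 * M + 1 + 2 * n * M + δ) := ⟨_, rfl⟩
  obtain ⟨B3, hB3⟩ : ∃ B3 : AbsoluteValue K ℝ → ℝ, B3 = fun v => B1 v * B2 v ^ k0 := ⟨_, rfl⟩
  have hP3 : PlC B3 := hB3 ▸ PlC_mul hB1 hB2 k0
  obtain ⟨C, hC, h3⟩ := hNHB K B3 hP3
  have h4 := (hNQH K B3 hP3).2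
  have hns : (1 : ℝ) ≤ (nsg σ n : ℝ) := by
    exact_mod_cast Nat.one_le_pow _ _ (by norm_num)
  refine ⟨C * nsg σ n, by positivity, fun e c A hA hint hhouse => ?_⟩
  have hev := fun (A : Type) [CommRing A] [Algebra K A] (X Ψ : Fin n → σ → A) (X0 Ψ0 : σ → A)
    (hX : OnB W X Ψ X0 Ψ0) => aeval_redV hNNB hNEB hNVB σ W n M δ e c A X Ψ X0 Ψ0 hX
  refine ⟨redV (cv W) (QhB W n M δ e c), ?_, ?_, ?_, ?_⟩
  · intro h
    exact hNDB K (VV σ n) (cv W) _ h _ (hNWB K σ W n M δ e c h)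
  · have h5 := h3 (VV σ n) (sqB e) (nsg σ n) A (redV (cv W) (QhB W n M δ e c)) hA
      fun v hv m => ?_
    · refine h5.trans ?_
      have h6 : (sqB e : ℝ) ≤ nsg σ n * (sqB e : ℝ) :=
        le_mul_of_one_le_left (by positivity) hns
      calc C * ((nsg σ n : ℕ) * A + (sqB e : ℝ))
          ≤ C * ((nsg σ n : ℕ) * A + nsg σ n * (sqB e : ℝ)) := by gcongr
        _ = C * nsg σ n * ((sqB e : ℝ) + A) := by ring
    · have hs : 0 ≤ cst v (Real.exp A) :=
        zero_le_one.trans (one_le_cst v (Real.one_le_exp hA))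
      have h6 := h1 e c v (cst v (Real.exp A)) hs fun α => h4 (c α) A v (hint α) (hhouse α) hv
      have h7 := h2 (QhB W n M δ e c) v _ (k0 * sqB e) h6 fun m hm h => by
        have h8 := hNWB K σ W n M δ e c h m hm
        have h9 := ddB_le σ n M δ e hn h
        rw [← hk0] at h9
        omega
      have h8 := (hFRPO K v (VV σ n)).2.2 _ _ m h7
      refine h8.trans (le_of_eq ?_)
      rw [hB3, mul_pow, ← pow_mul]
      ring
  · rintro x0 ⟨α, hα⟩ h0
    have hsq : ∀ i : σ, ∃ z : AlgebraicClosure K, z ^ 2 =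
        Bf (mapS (AlgebraicClosure K) W i) (algebraMap K (AlgebraicClosure K) (x0 i)) :=
      fun i => IsAlgClosed.exists_pow_nat_eq _ (n := 2) (by norm_num)
    choose Ψ0 hΨ0 using hsq
    obtain ⟨X, Ψ, hXΨ, hne⟩ := hNZHB K σ W hW n M δ e c (AlgebraicClosure K)
      (fun i => algebraMap K (AlgebraicClosure K) (x0 i)) Ψ0 hΨ0 ⟨α, by
        have : ∑ β : σ → Fin δ, algebraMap K (AlgebraicClosure K) (c (α, β)) *
            ∏ i, (algebraMap K (AlgebraicClosure K) (x0 i)) ^ (β i).val =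
            algebraMap K (AlgebraicClosure K) (∑ β : σ → Fin δ, c (α, β) *
              ∏ i, x0 i ^ (β i).val) := by
          rw [map_sum]
          refine Finset.sum_congr rfl fun β _ => ?_
          rw [map_mul, map_prod]
          congr 1
          refine Finset.prod_congr rfl fun i _ => ?_
          rw [map_pow]
        rw [this]
        exact (map_ne_zero _).2 hα⟩
    have h5 := hev (AlgebraicClosure K) X Ψ
      (fun i => algebraMap K (AlgebraicClosure K) (x0 i)) Ψ0 hXΨ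
    have h6 : aeval (Sum.elim (fun h : Fin n × σ => X h.1 h.2)
        (fun i => algebraMap K (AlgebraicClosure K) (x0 i)))
        (redV (cv W) (QhB W n M δ e c)) =
        aeval (fun h : Fin n × σ => X h.1 h.2) (spc x0 (redV (cv W) (QhB W n M δ e c))) := by
      have h7 : aeval (Sum.elim (fun h : Fin n × σ => X h.1 h.2)
          (fun i => algebraMap K (AlgebraicClosure K) (x0 i))) =
          (aeval (R := K) (fun h : Fin n × σ => X h.1 h.2)).comp (spc x0) := by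
        apply MvPolynomial.algHom_ext
        rintro (h | h)
        · simp [spc]
        · simp [spc]
      rw [h7, AlgHom.comp_apply]
    rw [h6, h0, map_zero] at h5
    refine Finset.prod_ne_zero_iff.2 (fun ε _ => hne ε) h5.symm
  · intro A _ _ X Ψ X0 Ψ0 hX
    refine ⟨∏ ε ∈ (Finset.univ : Finset (Fin n × σ → ℤˣ)).erase 1,
      P0B W n M δ e c X (fun j i => (((ε (j, i) : ℤˣ) : ℤ) : A) * Ψ j i) X0 Ψ0, ?_⟩
    rw [hev A X Ψ X0 Ψ0 hX, ← Finset.mul_prod_erase Finset.univ _ (Finset.mem_univ 1)]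
    congr 1
    have : (fun j i => ((((1 : Fin n × σ → ℤˣ) (j, i) : ℤˣ) : ℤ) : A) * Ψ j i) = Ψ := by
      funext j i
      simp
    rw [this]

end Pool.Agent.Helper38.VN.NQX
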