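import Pool.Agent.Helper68.VN.GoalsN

/-!
# Project HC, theorem PG (MP_a41896_nt): QIXB (adapted from Helper26.SG2.QIXT)
-/

set_option autoImplicit false

open MvPolynomial

namespace Pool.Agent.Helper38.VN.QIXB

open WeierstrassCurve Height
open Pool.Agent.Helper29.BL Pool.Agent.Helper92.Ru Pool.Agent.Helper42.SG
open Pool.Agent.Helper68.VN

section

variable {K : Type} [Field K] {V : Type} [Fintype V]

theorem coeff_scale (c : V → K) (p : MvPolynomial V K) (e : V →₀ ℕ) :
    coeff e (aeval (fun h => C (c h) * X h : V → MvPolynomial V K) p) =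
      coeff e p * ∏ h, c h ^ e h := by
  classical
  induction p using MvPolynomial.induction_on' with
  | monomial s a =>
    have h1 : aeval (fun h => C (c h) * X h : V → MvPolynomial V K) (monomial s a) =
        monomial s (a * ∏ h, c h ^ s h) := by
      rw [aeval_monomial, monomial_eq (a := a * ∏ h, c h ^ s h), Finsupp.prod_fintype _ _
        (fun i => pow_zero _), Finsupp.prod_fintype _ _ (fun i => pow_zero _)]
      simp only [mul_pow, Finset.prod_mul_distrib, C_mul, map_prod, map_pow, mul_assoc,
        MvPolynomial.algebraMap_eq]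
    rw [h1, coeff_monomial, coeff_monomial]
    by_cases h : s = e
    · subst h
      simp
    · simp [h]
  | add p q hp hq =>
    rw [map_add, coeff_add, coeff_add, hp, hq, add_mul]

theorem wt_mono (d : V → ℕ) {a e : V →₀ ℕ} (h : a ≤ e) : wt d a ≤ wt d e := by
  unfold wt
  apply Finset.sum_le_sum
  intro i _
  have := h i
  gcongr

end

theorem t_QIXB : Pool.Agent.Helper68.VN.QIXB := by
  classical
  intro K _ _ σ _ W n ξ ψ X Ψ Q f g d θ hT hψ hd hQ hf e he
  by_contra hlt
  rw [not_le] at hlt
  rw [mem_support_iff] at he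
  apply he
  have hc : ∀ h : Fin n × σ, 4 * ψ h.1 h.2 ^ 2 ≠ 0 := fun h =>
    mul_ne_zero (by norm_num) (pow_ne_zero _ (hψ h.1 h.2))
  have key : coeff e (aeval (fun h : Fin n × σ => C (4 * ψ h.1 h.2 ^ 2) * MvPolynomial.X h :
      Fin n × σ → MvPolynomial (Fin n × σ) K)
      (shiftP (fun h : Fin n × σ => ξ h.1 h.2) Q)) = 0 := by
    have h1 : MvPowerSeries.coeff e (f * g) = 0 := by
      rw [MvPowerSeries.coeff_mul]
      apply Finset.sum_eq_zero
      rintro ⟨a, b⟩ hab
      have hab' : a + b = e := by simpa using hab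
      have hae : a ≤ e := by rw [← hab']; exact le_self_add
      rw [hf a ((wt_mono d hae).trans_lt hlt), zero_mul]
    have h2 : aeval (fun h : Fin n × σ => X h.1 h.2) Q =
        ((aeval (fun h : Fin n × σ => C (4 * ψ h.1 h.2 ^ 2) * MvPolynomial.X h :
          Fin n × σ → MvPolynomial (Fin n × σ) K)
          (shiftP (fun h : Fin n × σ => ξ h.1 h.2) Q) : MvPolynomial (Fin n × σ) K) :
          MvPowerSeries (Fin n × σ) K) := by
      have h3 : aeval (fun h : Fin n × σ => X h.1 h.2) =
          ((MvPolynomial.coeToMvPowerSeries.algHom (R := K) (σ := Fin n × σ) K).comp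
            (aeval (fun h : Fin n × σ => C (4 * ψ h.1 h.2 ^ 2) * MvPolynomial.X h :
              Fin n × σ → MvPolynomial (Fin n × σ) K))).comp
            (shiftP (fun h : Fin n × σ => ξ h.1 h.2)) := by
        apply MvPolynomial.algHom_ext
        intro h
        simp only [aeval_X, AlgHom.comp_apply, shiftP, hT.eqX h.1 h.2]
        simp [MvPolynomial.coeToMvPowerSeries.algHom_apply, MvPowerSeries.map_id, add_comm]
      rw [h3]
      simp [MvPolynomial.coeToMvPowerSeries.algHom_apply, MvPowerSeries.map_id]
    rw [← MvPolynomial.coeff_coe, ← h2, hQ, h1]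
  rw [coeff_scale] at key
  rcases mul_eq_zero.1 key with h | h
  · exact h
  · exfalso
    rw [Finset.prod_eq_zero_iff] at h
    obtain ⟨i, -, hi⟩ := h
    exact pow_ne_zero _ (hc i) hi

end Pool.Agent.Helper38.VN.QIXB
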